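import Pool.Agent.Helper79.HC.Defs

namespace Pool.Agent.Helper79.HC

open MeasureTheory Set

theorem dvg_continuous {φ : ℂ → ℂ} (hφ : ContDiff ℝ 1 φ) : Continuous (dvg φ) := by
  have h : Continuous (fderiv ℝ φ) := hφ.continuous_fderiv (by norm_num)
  have h1 : Continuous (fun z => fderiv ℝ φ z 1) := h.clm_apply continuous_const
  have h2 : Continuous (fun z => fderiv ℝ φ z Complex.I) := h.clm_apply continuous_const
  exact (Complex.continuous_re.comp h1).add (Complex.continuous_im.comp h2)

private theorem fderiv_apply_supp {φ : ℂ → ℂ} (hs : HasCompactSupport φ) (v : ℂ) :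
    HasCompactSupport (fun z => fderiv ℝ φ z v) := by
  have h := hs.fderiv (𝕜 := ℝ)
  exact h.comp_left (g := fun L : ℂ →L[ℝ] ℂ => L v) (by simp)

private theorem fderiv_apply_integrable {φ : ℂ → ℂ} (hφ : ContDiff ℝ 1 φ)
    (hs : HasCompactSupport φ) (v : ℂ) : Integrable (fun z => fderiv ℝ φ z v) := by
  have h : Continuous (fderiv ℝ φ) := hφ.continuous_fderiv (by norm_num)
  exact (h.clm_apply continuous_const).integrable_of_hasCompactSupport (fderiv_apply_supp hs v)

private theorem integral_fderiv_apply {φ : ℂ → ℂ} (hφ : ContDiff ℝ 1 φ)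
    (hs : HasCompactSupport φ) (v : ℂ) : ∫ z, fderiv ℝ φ z v = 0 := by
  have h := integral_smul_fderiv_eq_neg_fderiv_smul_of_integrable (μ := (volume : Measure ℂ))
    (𝕜 := ℝ) (f := fun _ : ℂ => (1 : ℝ)) (g := φ) (v := v) (by simp)
    (by simpa using fderiv_apply_integrable hφ hs v)
    (by simpa using hφ.continuous.integrable_of_hasCompactSupport hs)
    (fun x _ => differentiableAt_const _)
    (fun x _ => (hφ.differentiable (by norm_num)) x)
  simpa using h

theorem dvg_integrable {φ : ℂ → ℂ} (hφ : ContDiff ℝ 1 φ) (hs : HasCompactSupport φ) :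
    Integrable (dvg φ) := by
  exact ((fderiv_apply_integrable hφ hs 1).re).add ((fderiv_apply_integrable hφ hs Complex.I).im)

theorem integral_dvg {φ : ℂ → ℂ} (hφ : ContDiff ℝ 1 φ) (hs : HasCompactSupport φ) :
    ∫ z, dvg φ z = 0 := by
  have h1 := fderiv_apply_integrable hφ hs 1
  have h2 := fderiv_apply_integrable hφ hs Complex.I
  have e1 : ∫ z, (fderiv ℝ φ z 1).re = 0 := by
    have := integral_re h1
    rw [integral_fderiv_apply hφ hs 1] at this
    simpa using this
  have e2 : ∫ z, (fderiv ℝ φ z Complex.I).im = 0 := by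
    have := integral_im h2
    rw [integral_fderiv_apply hφ hs Complex.I] at this
    simpa using this
  have h3 : Integrable (fun z => (fderiv ℝ φ z 1).re) := h1.re
  have h4 : Integrable (fun z => (fderiv ℝ φ z Complex.I).im) := h2.im
  show ∫ z, ((fderiv ℝ φ z 1).re + (fderiv ℝ φ z Complex.I).im) = 0
  rw [integral_add h3 h4, e1, e2, add_zero]

end Pool.Agent.Helper79.HC
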